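import Pool.Agent.MP_ed9623_an.H77.SpecX

/-! From a neighbourhood of a point of the inner circle to a thin annulus. -/

open MeasureTheory Filter Topology Set

namespace Pool.Agent.MP_ed9623_an.H77

namespace RotB

theorem near {u v r s η : ℝ} (hr : 0 < r) (h : u ^ 2 + v ^ 2 = r ^ 2) (h1 : r < s)
    (h2 : s < r + η) : |s / r * u - u| < η := by
  have h3 : |u| ≤ r := abs_le_of_sq_le_sq' (by nlinarith [sq_nonneg v]) hr.le |> abs_le.2
  have h4 : s / r * u - u = (s - r) / r * u := by field_simp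
  rw [h4, abs_mul, abs_of_pos (div_pos (by linarith) hr)]
  calc (s - r) / r * |u| ≤ (s - r) / r * r := by gcongr
    _ = s - r := by field_simp
    _ < η := by linarith

theorem rot {c x₁ x : P} {r η : ℝ} (hr : 0 < r) (hη : 0 < η) (h : qc c x₁ = r ^ 2)
    (hx : x ∈ An c r (r + η)) :
    ∃ τ : P, τ.1 ^ 2 + τ.2 ^ 2 = 1 ∧ Rt c τ x ∈ Metric.ball x₁ η := by
  obtain ⟨s, hs0, hs⟩ : ∃ s : ℝ, 0 ≤ s ∧ s ^ 2 = qc c x :=
    ⟨_, Real.sqrt_nonneg _, Real.sq_sqrt ((sq_nonneg r).trans hx.1.le)⟩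
  have h1 : r < s := lt_of_pow_lt_pow_left₀ 2 hs0 (hs ▸ hx.1)
  have h2 : s < r + η := lt_of_pow_lt_pow_left₀ 2 (by linarith) (hs ▸ hx.2)
  have h3 : s ≠ 0 := (hr.trans h1).ne'
  have h4 := hr.ne'
  simp only [qc] at h hs
  refine ⟨(((x₁.1 - c.1) * (x.1 - c.1) + (x₁.2 - c.2) * (x.2 - c.2)) / (r * s),
    ((x₁.2 - c.2) * (x.1 - c.1) - (x₁.1 - c.1) * (x.2 - c.2)) / (r * s)), ?_, ?_⟩
  · field_simp
    linear_combination ((x.1 - c.1) ^ 2 + (x.2 - c.2) ^ 2) * h - r ^ 2 * hs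
  · rw [Metric.mem_ball, Prod.dist_eq, max_lt_iff, Real.dist_eq, Real.dist_eq]
    simp only [Rt, Th, Prod.fst_sub, Prod.snd_sub, add_zero]
    constructor
    · refine lt_of_eq_of_lt (congrArg abs ?_) (near hr h h1 h2)
      field_simp
      linear_combination (c.1 - x₁.1) * hs
    · refine lt_of_eq_of_lt (congrArg abs ?_) (near hr ((add_comm _ _).trans h) h1 h2)
      field_simp
      linear_combination (c.2 - x₁.2) * hs

end RotB

theorem rowRotB : OfRotB := by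
  intro hT c x₁ r R η f p hr hR h hη hf hp
  refine ⟨min η (R - r), lt_min hη (by linarith), ae_of_loc fun x hx => ?_⟩
  have h0 : 0 < r + min η (R - r) := add_pos hr (lt_min hη (by linarith))
  have h1 : x ∈ An c r (r + η) :=
    ⟨hx.1, hx.2.trans_le (pow_le_pow_left₀ h0.le (by linarith [min_le_left η (R - r)]) 2)⟩
  have h2 : x ∈ An c r R :=
    ⟨hx.1, hx.2.trans_le (pow_le_pow_left₀ h0.le (by linarith [min_le_right η (R - r)]) 2)⟩
  obtain ⟨τ, hτ, h3⟩ := RotB.rot hr hη h h1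
  have hc : Continuous (Rt c τ) := by unfold Rt Th; fun_prop
  have hm : MeasurePreserving (Rt c τ) volume volume :=
    (hT c τ _ hτ Gam.zero).1.comp (measurePreserving_sub_right volume c)
  refine ⟨An c r R ∩ Rt c τ ⁻¹' Metric.ball x₁ η,
    ((isOpen_An c r R).inter (Metric.isOpen_ball.preimage hc)).mem_nhds ⟨h2, h3⟩, ?_⟩
  filter_upwards [hf τ hτ, hm.quasiMeasurePreserving.ae hp] with y a b hy
  exact a hy.1 ▸ b hy.2

end Pool.Agent.MP_ed9623_an.H77
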