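import Pool.Agent.MP_ed9623_an.H77.SpecW

/-! Higher regularity for the scalar equation. -/

open MeasureTheory Filter Topology Set
open scoped ContDiff

namespace Pool.Agent.MP_ed9623_an.H77

open H64

namespace Hk

variable {ι : Type} {O O' : Set P} {k k' : ℕ} {f g : ι → P → ℝ} {γ : ℝ → ℝ} {σ r r' : ℝ}

/-- Uniform dual bounds for a family. -/
def UB (O : Set P) (k : ℕ) (f : ι → P → ℝ) : Prop :=
  (∀ j, M2 (f j)) ∧ ∃ C : ℝ, 0 ≤ C ∧ ∀ j, HB O k (f j) C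

/-- Uniform norm bounds for a family. -/
def UN (f : ι → P → ℝ) : Prop := (∀ j, M2 (f j)) ∧ ∃ C : ℝ, 0 ≤ C ∧ ∀ j, nm (f j) ≤ C

theorem UN.ub (h : UN f) : UB O 0 f := by
  obtain ⟨a, C, b, c⟩ := h
  exact ⟨a, C, b, fun j => HB.zero (a j) (c j)⟩

theorem UN.add (h : UN f) (h' : UN g) : UN fun j p => f j p + g j p := by
  obtain ⟨a, C, b, c⟩ := h
  obtain ⟨a', C', b', c'⟩ := h'
  exact ⟨fun j => (a j).add (a' j), C + C', add_nonneg b b', fun j =>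
    (nm_add_le (a j) (a' j)).trans (add_le_add (c j) (c' j))⟩

theorem UN.gmul (h : UN f) (hγ : Gam γ) : UN fun j p => γ p.1 * f j p := by
  obtain ⟨a, C, b, c⟩ := h
  obtain ⟨K, K0, hK⟩ := hγ.bd
  exact ⟨fun j => (a j).gmul hγ, K * C, mul_nonneg K0 b, fun j =>
    (nm_bmul (a j) K0 (Eventually.of_forall fun p => hK p.1)).trans
      (mul_le_mul_of_nonneg_left (c j) K0)⟩

theorem UB.mono (h : UB O k f) (hO : O' ⊆ O) (hk : k' ≤ k) : UB O' k' f := by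
  obtain ⟨a, C, b, c⟩ := h
  exact ⟨a, C, b, fun j => (c j).mono hO hk le_rfl⟩

theorem UB.add (h : UB O k f) (h' : UB O k g) : UB O k fun j p => f j p + g j p := by
  obtain ⟨a, C, b, c⟩ := h
  obtain ⟨a', C', b', c'⟩ := h'
  exact ⟨fun j => (a j).add (a' j), C + C', add_nonneg b b', fun j =>
    (c j).add (c' j) (a j) (a' j)⟩

theorem UB.cmul (h : UB O k f) (t : ℝ) : UB O k fun j p => t * f j p := by
  obtain ⟨a, C, b, c⟩ := h
  exact ⟨fun j => (a j).cmul t, |t| * C, mul_nonneg (abs_nonneg t) b, fun j => (c j).cmul t⟩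

theorem UB.neg (h : UB O k f) : UB O k fun j p => -f j p := by
  simpa using h.cmul (-1)

theorem UB.sub (h : UB O k f) (h' : UB O k g) : UB O k fun j p => f j p - g j p := by
  simpa only [sub_eq_add_neg] using h.add h'.neg

theorem bdd (σ r : ℝ) : Bornology.IsBounded (Qp σ r) :=
  Metric.isBounded_ball.subset (Q_eq_ball r ▸ Qp_sub σ r)

theorem UB.smul (hb : HbS) (h : UB (Qp σ r) k f) {m : P → ℝ} (hm : ContDiff ℝ ∞ m)
    (h2 : ∀ j, M2 fun p => m p * f j p) : UB (Qp σ r) k fun j p => m p * f j p := by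
  obtain ⟨a, C, b, c⟩ := h
  obtain ⟨K, K0, -, hK⟩ := hb.2.2 (Qp σ r) k m (bdd σ r) hm
  exact ⟨h2, K * C, mul_nonneg K0 b, fun j => hK _ _ (a j) b (c j)⟩

theorem UB.gmul (hb : HbS) (h : UB (Qp σ r) k f) (hγ : Gam γ) :
    UB (Qp σ r) k fun j p => γ p.1 * f j p :=
  h.smul hb hγ.smP fun j => (h.1 j).gmul hγ

theorem UB.der {i : Fin 2} (h : UB O (k + 1) f) (hg : ∀ j, M2 (g j))
    (hw : ∀ j, WD O (ee i) (f j) (g j)) : UB O k g := by
  obtain ⟨-, C, b, c⟩ := h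
  exact ⟨hg, C, b, fun j => (c j).der (hw j)⟩

theorem UB.succ {g' : ι → P → ℝ} (h : UB O 0 f) (hw : ∀ j, WD O (ee 0) (f j) (g j))
    (hw' : ∀ j, WD O (ee 1) (f j) (g' j)) (h0 : UB O k g) (h1 : UB O k g') : UB O (k + 1) f := by
  obtain ⟨a, C, b, c⟩ := h
  obtain ⟨-, C0, b0, c0⟩ := h0
  obtain ⟨-, C1, b1, c1⟩ := h1
  refine ⟨a, C + C0 + C1, by positivity, fun j => HB.succ (g := ![g j, g' j])
    ((c j).mono le_rfl le_rfl (by linarith)) (fun i => ?_) fun i => ?_⟩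
  · fin_cases i
    · exact hw j
    · exact hw' j
  · fin_cases i
    · exact (c0 j).mono le_rfl le_rfl (by linarith)
    · exact (c1 j).mono le_rfl le_rfl (by linarith)

theorem UB.exd (hb : HbS) (h : UB O (k + 1) f) :
    ∃ g : ι → P → ℝ, UB O k g ∧ ∀ j, WD O (ee 0) (f j) (g j) := by
  obtain ⟨a, C, b, c⟩ := h
  choose g hg using fun j => hb.1 O k (f j) C (a j) b (c j)
  exact ⟨fun j => g j 0, ⟨fun j => (hg j 0).1, C, b, fun j => (hg j 0).2.2.2⟩,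
    fun j => (hg j 0).2.2.1⟩

variable {W F : ι → P → ℝ} {d dY : ι → Fin 2 → P → ℝ}

theorem tang (h0 : Reg0S) (hγ : Gam γ) (hσ : σ ≤ 0) (r0 : 0 < r') (hr : r' < r)
    (hs : ∀ j, So γ σ r (W j) (d j) (F j)) (hW : UN W) (hd : ∀ i, UN fun j => d j i)
    (hF : UB (Qp σ r) 0 F) : ∃ dY : ι → Fin 2 → P → ℝ, ∀ i, UN (fun j => dY j i) ∧
      ∀ j, WD (Q r') (ee 0) (d j i) (dY j i) := by
  obtain ⟨-, C1, b1, c1⟩ := hW
  obtain ⟨-, C2, b2, c2⟩ := hd 0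
  obtain ⟨-, C3, b3, c3⟩ := hd 1
  obtain ⟨-, C4, b4, c4⟩ := hF
  obtain ⟨C, C0, hC⟩ := h0 γ σ r r' (C1 + C2 + C3 + C4) hγ hσ r0 hr (by positivity)
  have key := fun j => hC (W j) (d j) (F j) (hs j) ((c1 j).trans (by linarith)) (fun i => by
    fin_cases i
    · exact (c2 j).trans (by linarith)
    · exact (c3 j).trans (by linarith)) ((c4 j).mono le_rfl le_rfl (by linarith))
  choose dY a b c using key
  exact ⟨dY, fun i => ⟨⟨fun j => a j i, C, C0, fun j => b j i⟩, fun j => c j i⟩⟩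

/-- The normal derivatives. -/
noncomputable def dS (γ : ℝ → ℝ) (F : P → ℝ) (dY : Fin 2 → P → ℝ) : Fin 2 → P → ℝ :=
  ![fun p => dY 1 p - deriv γ p.1 * nS γ F dY p, nS γ F dY]

theorem norm_wd (hn : NorS) (hγ : Gam γ) (hs : ∀ j, So γ σ r (W j) (d j) (F j))
    (hm : ∀ j i, M2 (dY j i)) (hw : ∀ j i, WD (Q r) (ee 0) (d j i) (dY j i)) (j : ι) (i : Fin 2) :
    M2 (dS γ (F j) (dY j) i) ∧ WD (Qp σ r) (ee 1) (d j i) (dS γ (F j) (dY j) i) := by
  obtain ⟨a, b, c⟩ := (hn γ σ r (W j) (F j) (d j) (dY j) hγ (hs j) (hm j)).1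
    fun i => (hw j i).mono (Qp_sub σ r)
  fin_cases i
  · exact ⟨(hm j 1).sub (a.gmul hγ.deriv), c⟩
  · exact ⟨a, b⟩

theorem fin (hb : HbS) (hn : NorS) (hγ : Gam γ) (hs : ∀ j, So γ σ r (W j) (d j) (F j))
    (hd : ∀ i, UN fun j => d j i) (hw : ∀ j i, WD (Q r) (ee 0) (d j i) (dY j i))
    (hF : UB (Qp σ r) k F) (hY : ∀ i, UB (Qp σ r) k fun j => dY j i) (i : Fin 2) :
    UB (Qp σ r) (k + 1) fun j => d j i := by
  have h1 := norm_wd hn hγ hs (fun j i => (hY i).1 j) hw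
  have e : ∀ j, nS γ (F j) (dY j) = fun p : P => (1 + deriv γ p.1 ^ 2)⁻¹ *
      (-F j p - dY j 0 p + deriv γ p.1 * dY j 1 p) := fun j => funext fun p =>
    div_eq_inv_mul _ _
  have h2 : UB (Qp σ r) k fun j => nS γ (F j) (dY j) := by
    simp only [e]
    refine ((hF.neg.sub (hY 0)).add ((hY 1).gmul hb hγ.deriv)).smul hb ?_ fun j => ?_
    · exact (contDiff_const.add (hγ.deriv.smP.pow 2)).inv fun p => by positivity
    · rw [← e]
      exact (h1 j 1).1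
  refine (hd i).ub.succ (fun j => (hw j i).mono (Qp_sub σ r)) (fun j => (h1 j i).2) (hY i) ?_
  fin_cases i
  · exact (hY 1).sub (h2.gmul hb hγ.deriv)
  · exact h2

theorem main (hb : HbS) (h0 : Reg0S) (hn : NorS) (hγ : Gam γ) (hσ : σ ≤ 0) (k : ℕ) :
    ∀ (r r' : ℝ) (W F : ι → P → ℝ) (d : ι → Fin 2 → P → ℝ), 0 < r' → r' < r →
      (∀ j, So γ σ r (W j) (d j) (F j)) → UN W → (∀ i, UN fun j => d j i) → UB (Qp σ r) k F →
      ∀ i, UB (Qp σ r') (k + 1) fun j => d j i := by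
  induction k with
  | zero =>
    intro r r' W F d r0 hr hs hW hd hF
    obtain ⟨dY, hY⟩ := tang h0 hγ hσ r0 hr hs hW hd hF
    exact fin hb hn hγ (fun j => (hs j).mono hr.le) hd (fun j i => (hY i).2 j)
      (hF.mono (Qp_mono hr.le) le_rfl) fun i => (hY i).1.ub
  | succ k ih =>
    intro r r' W F d r0 hr hs hW hd hF
    obtain ⟨r₁, a1, a2⟩ := exists_between hr
    have r1 : 0 < r₁ := r0.trans a1
    obtain ⟨dY, hY⟩ := tang h0 hγ hσ r1 a2 hs hW hd (hF.mono le_rfl (Nat.zero_le _))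
    have hs1 := fun j => (hs j).mono a2.le
    have h1 := norm_wd hn hγ hs1 (fun j i => (hY i).1.1 j) fun j i => (hY i).2 j
    have h2 := ih r r₁ W F d r1 a2 hs hW hd (hF.mono le_rfl (Nat.le_succ k))
    obtain ⟨FY, f1, f2⟩ := (hF.mono (Qp_mono a2.le) le_rfl).exd hb
    have h3 := fun j => (hn γ σ r₁ (W j) (F j) (d j) (dY j) hγ (hs1 j) fun i => (hY i).1.1 j).2
      (dS γ (F j) (dY j)) (FY j) (fun i => (h1 j i).1) (f1.1 j) (fun i => (hY i).2 j)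
      (fun i => (h1 j i).2) (f2 j)
    have h4 : UB (Qp σ r₁) k fun j => dS γ (F j) (dY j) 0 :=
      (h2 0).der (fun j => (h1 j 0).1) fun j => (h1 j 0).2
    have h5 := ih r₁ r' _ _ _ r0 a1 h3 ((hd 0).add ((hd 1).gmul hγ.deriv)) (fun i => by
      fin_cases i
      · exact (hY 0).1.add ((hd 1).gmul hγ.deriv.deriv)
      · exact (hY 1).1) ((f1.sub ((h4.gmul hb hγ.deriv.deriv).cmul 2)).sub
        (((h2 1).mono le_rfl (Nat.le_succ k)).gmul hb hγ.deriv.deriv.deriv))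
    refine fin hb hn hγ (fun j => (hs j).mono hr.le) hd
      (fun j i => ((hY i).2 j).mono (Q_mono a1.le)) (hF.mono (Qp_mono hr.le) le_rfl) fun i => ?_
    fin_cases i
    · have h6 := (h5 0).sub (((h2 1).mono (Qp_mono a1.le) le_rfl).gmul hb hγ.deriv.deriv)
      simpa [tD] using h6
    · exact h5 1

end Hk

open Hk in
theorem rowHk : OfHk := by
  intro hb h0 hn γ σ k r r' R hγ hσ r0 hr hR
  let ι := {x : (P → ℝ) × (Fin 2 → P → ℝ) × (P → ℝ) // So γ σ r x.1 x.2.1 x.2.2 ∧ nm x.1 ≤ R ∧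
    (∀ i, nm (x.2.1 i) ≤ R) ∧ HB (Qp σ r) k x.2.2 R}
  have hW : UN fun j : ι => j.1.1 := ⟨fun j => j.2.1.h1.m, R, hR, fun j => j.2.2.1⟩
  have h1 := main hb h0 hn hγ hσ k r r' (fun j : ι => j.1.1) (fun j => j.1.2.2) (fun j => j.1.2.1)
    r0 hr (fun j => j.2.1) hW (fun i => ⟨fun j => j.2.1.h1.md i, R, hR, fun j => j.2.2.2.1 i⟩)
    ⟨fun j => j.2.1.mF, R, hR, fun j => j.2.2.2.2⟩
  have hs : Qp σ r' ⊆ Q r := (Qp_sub σ r').trans (Q_mono hr.le)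
  have h2 : UB (Qp σ r') (k + 2) fun j : ι => j.1.1 :=
    hW.ub.succ (fun j => (j.2.1.h1.wd0 hγ).mono hs) (fun j => j.2.1.h1.wd1.mono hs)
      ((h1 0).add ((h1 1).gmul hb hγ.deriv)) (h1 1)
  obtain ⟨-, C0, b0, c0⟩ := h1 0
  obtain ⟨-, C1, b1, c1⟩ := h1 1
  obtain ⟨-, C2, b2, c2⟩ := h2
  refine ⟨C0 + C1 + C2, by positivity, fun W d F a1 a2 a3 a4 => ⟨?_, fun i => ?_⟩⟩
  · exact (c2 ⟨(W, d, F), a1, a2, a3, a4⟩).mono le_rfl le_rfl (by linarith)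
  · fin_cases i
    · exact (c0 ⟨(W, d, F), a1, a2, a3, a4⟩).mono le_rfl le_rfl (by linarith)
    · exact (c1 ⟨(W, d, F), a1, a2, a3, a4⟩).mono le_rfl le_rfl (by linarith)

end Pool.Agent.MP_ed9623_an.H77
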